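import Pool.Agent.Lib.MP_e16db3_al.Final

/-!
# Contraction of a wreath recursion is undecidable
-/

open Pool.Agent.WreathContraction

/-- There is no algorithm which, given the finite data of a wreath recursion, decides whether the
group defined by it is contracting. The data are handed to the algorithm by means of the
injective code `Input.code`, and no partial recursive function gives the right answer on the codes
of all inputs, whatever it does elsewhere. -/
theorem Pool.Agent.Results.MP_e16db3_al.Undecidable.result :
    Function.Injective Input.code ∧
    ¬ ∃ f : Code →. Bool, Partrec f ∧
      ∀ I : Input, ∃ b ∈ f I.code, (b = true ↔ I.DefinesContracting) :=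
  ⟨code_injective, no_algorithm⟩
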